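import Pool.Agent.helper1.PR.Defs

/-!
PR project (MP_15abe0_co), module J8: the main term for given `w`.
-/

namespace Pool.Agent.helper1.PR

open Finset

private theorem h96_card_ap {k r : ℕ} (hr : 0 < r) (a e : ℤ) :
    #{x ∈ Ico a (a + (k : ℤ) * r) | x ≡ e [ZMOD (r : ℤ)]} = k := by
  have hr' : (0 : ℤ) < r := by exact_mod_cast hr
  have h := Int.Ico_filter_modEq_card a (a + (k : ℤ) * r) hr' e
  have hq : (r : ℚ) ≠ 0 := by exact_mod_cast hr.ne'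
  have h2 : (((a + (k : ℤ) * r : ℤ) : ℚ) - (e : ℚ)) / (((r : ℕ) : ℤ) : ℚ) =
      ((a : ℚ) - e) / (((r : ℕ) : ℤ) : ℚ) + ((k : ℤ) : ℚ) := by
    push_cast
    field_simp
    ring
  rw [h2, Int.ceil_add_intCast] at h
  have h3 : ⌈((a : ℚ) - e) / (((r : ℕ) : ℤ) : ℚ)⌉ + (k : ℤ) -
      ⌈((a : ℚ) - e) / (((r : ℕ) : ℤ) : ℚ)⌉ = k := by ring
  rw [h3] at h
  have h4 : max (k : ℤ) 0 = k := max_eq_left (by positivity)
  rw [h4] at h
  exact_mod_cast h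

private theorem h96_cond {m Q0 : ℕ} (hm : 0 < m) (c r a o : ℤ)
    (ho : 0 ≤ o ∧ o < Q0) :
    ((m : ℤ) ∣ r - a ∧ (c + (r - a) / m) % Q0 = o) ↔
      a ≡ r - m * (o - c) [ZMOD ((m * Q0 : ℕ) : ℤ)] := by
  have hm' : (m : ℤ) ≠ 0 := by exact_mod_cast hm.ne'
  constructor
  · rintro ⟨⟨k, hk⟩, h⟩
    rw [hk, Int.mul_ediv_cancel_left _ hm'] at h
    have h5 : (Q0 : ℤ) ∣ c + k - o := by
      have h6 : o ≡ c + k [ZMOD (Q0 : ℤ)] := by
        show o % (Q0 : ℤ) = (c + k) % (Q0 : ℤ)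
        rw [h, Int.emod_eq_of_lt ho.1 ho.2]
      exact h6.dvd
    obtain ⟨l, hl⟩ := h5
    apply Int.ModEq.symm
    rw [Int.modEq_iff_dvd]
    refine ⟨-l, ?_⟩
    push_cast
    have h7 : a = r - m * k := by linarith
    have h8 : k = Q0 * l + o - c := by linarith
    rw [h7, h8]; ring
  · intro h
    have h1 := h.symm.dvd
    obtain ⟨l, hl⟩ := h1
    push_cast at hl
    have h7 : r - a = m * (o - c - Q0 * l) := by linarith
    refine ⟨⟨_, h7⟩, ?_⟩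
    rw [h7, Int.mul_ediv_cancel_left _ hm']
    have h8 : c + (o - c - (Q0 : ℤ) * l) = o + Q0 * (-l) := by ring
    rw [h8, Int.add_mul_emod_self_left, Int.emod_eq_of_lt ho.1 ho.2]

/-- one coordinate -/
private theorem h96_line {m Q0 s0 L : ℕ} (hm : 0 < m) (hQ : 0 < Q0) (hs : 0 < s0) (hL : 0 < L)
    (h : m * Q0 * s0 ∣ L) (α β : ℕ) (c r : ℤ) (F : ℤ → ℤ → ℝ) :
    ∑ a ∈ Ico ((α : ℤ) * L) (β * L) with (m : ℤ) ∣ r - a,
        F (a * s0 / L) ((c + (r - a) / m) % Q0) =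
      ((L : ℝ) / (m * Q0 * s0)) *
        ∑ v ∈ Ico ((α : ℤ) * s0) (β * s0), ∑ o ∈ Ico (0 : ℤ) Q0, F v o := by
  obtain ⟨k, hk⟩ := h
  have hk0 : 0 < k := by
    rcases Nat.eq_zero_or_pos k with h0 | h0
    · subst h0; simp at hk; omega
    · exact h0
  have hmap : ∀ a ∈ {a ∈ Ico ((α : ℤ) * L) (β * L) | (m : ℤ) ∣ r - a},
      (a * s0 / L, (c + (r - a) / m) % (Q0 : ℤ)) ∈
        Ico ((α : ℤ) * s0) (β * s0) ×ˢ Ico (0 : ℤ) Q0 := by
    intro a ha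
    simp only [mem_filter, mem_Ico] at ha
    simp only [mem_product, mem_Ico]
    have hQ' : (0 : ℤ) < Q0 := by exact_mod_cast hQ
    have hL' : (0 : ℤ) < L := by exact_mod_cast hL
    have hs' : (0 : ℤ) < s0 := by exact_mod_cast hs
    refine ⟨⟨?_, ?_⟩, Int.emod_nonneg _ hQ'.ne', Int.emod_lt_of_pos _ hQ'⟩
    · rw [Int.le_ediv_iff_mul_le hL']
      nlinarith [ha.1.1]
    · rw [Int.ediv_lt_iff_lt_mul hL']
      nlinarith [ha.1.2]
  rw [← sum_fiberwise_of_maps_to hmap, sum_product, mul_sum]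
  apply sum_congr rfl
  intro v hv
  rw [mul_sum]
  apply sum_congr rfl
  intro o ho
  have hcard : #(filter (fun a : ℤ => (a * s0 / L, (c + (r - a) / m) % (Q0 : ℤ)) = (v, o))
      (filter (fun a : ℤ => (m : ℤ) ∣ r - a) (Ico ((α : ℤ) * L) (β * L)))) = k := by
    have hset : filter (fun a : ℤ => (a * s0 / L, (c + (r - a) / m) % (Q0 : ℤ)) = (v, o))
        (filter (fun a : ℤ => (m : ℤ) ∣ r - a) (Ico ((α : ℤ) * L) (β * L))) =
        filter (fun a : ℤ => a ≡ r - m * (o - c) [ZMOD ((m * Q0 : ℕ) : ℤ)])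
          (Ico (v * (k * (m * Q0 : ℕ))) (v * (k * (m * Q0 : ℕ)) + (k : ℤ) * (m * Q0 : ℕ))) := by
      ext a
      simp only [mem_filter, mem_Ico, Prod.mk.injEq]
      have hc := h96_cond hm c r a o (by simpa using ho)
      have hdiv : (L : ℤ) = (k * (m * Q0 : ℕ)) * s0 := by
        rw [hk]; push_cast; ring
      have hs' : (0 : ℤ) < s0 := by exact_mod_cast hs
      have hL' : (0 : ℤ) < L := by exact_mod_cast hL
      have hU : (0 : ℤ) < k * (m * Q0 : ℕ) := by positivity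
      have hv' : α * s0 ≤ v ∧ v < β * s0 := by simpa using hv
      have hquot : a * s0 / L = v ↔ v * (k * (m * Q0 : ℕ)) ≤ a ∧
          a < v * (k * (m * Q0 : ℕ)) + (k : ℤ) * (m * Q0 : ℕ) := by
        rw [hdiv, Int.mul_ediv_mul_of_pos_left _ _ hs']
        constructor
        · intro h1
          rw [← h1]
          constructor
          · exact Int.ediv_mul_le _ hU.ne'
          · have := Int.lt_ediv_add_one_mul_self a hU
            linarith [this]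
        · rintro ⟨h1, h2⟩
          apply le_antisymm
          · have : a / (k * (m * Q0 : ℕ)) < v + 1 := by
              rw [Int.ediv_lt_iff_lt_mul hU]; linarith
            linarith
          · rw [Int.le_ediv_iff_mul_le hU]; exact h1
      rw [← hc, hquot]
      constructor
      · rintro ⟨⟨h1, h2⟩, h3, h4⟩
        exact ⟨h3, h2, h4⟩
      · rintro ⟨h3, h2, h4⟩
        refine ⟨⟨⟨?_, ?_⟩, h2⟩, h3, h4⟩
        · refine le_trans ?_ h3.1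
          rw [hdiv]
          nlinarith [mul_le_mul_of_nonneg_right hv'.1 hU.le]
        · refine lt_of_lt_of_le h3.2 ?_
          rw [hdiv]
          have h5 : v + 1 ≤ β * s0 := by omega
          nlinarith [mul_le_mul_of_nonneg_right h5 hU.le]
    rw [hset]
    exact h96_card_ap (by positivity) _ _
  have hconst : ∑ a ∈ filter (fun a : ℤ => (a * s0 / L, (c + (r - a) / m) % (Q0 : ℤ)) = (v, o))
      (filter (fun a : ℤ => (m : ℤ) ∣ r - a) (Ico ((α : ℤ) * L) (β * L))),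
      F (a * s0 / L) ((c + (r - a) / m) % Q0) =
      ∑ a ∈ filter (fun a : ℤ => (a * s0 / L, (c + (r - a) / m) % (Q0 : ℤ)) = (v, o))
        (filter (fun a : ℤ => (m : ℤ) ∣ r - a) (Ico ((α : ℤ) * L) (β * L))), F v o := by
    apply sum_congr rfl
    intro a ha
    have h1 := (mem_filter.1 ha).2
    rw [Prod.mk.injEq] at h1
    rw [h1.1, h1.2]
  rw [hconst, sum_const, hcard, nsmul_eq_mul]
  congr 1
  rw [hk]
  push_cast
  have h1 : (m : ℝ) ≠ 0 := by exact_mod_cast hm.ne'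
  have h2 : (Q0 : ℝ) ≠ 0 := by exact_mod_cast hQ.ne'
  have h3 : (s0 : ℝ) ≠ 0 := by exact_mod_cast hs.ne'
  field_simp

theorem main_eq {Q0 s0 Q' Ly : ℕ} (h0 : 0 < Q0) (hs : 0 < s0) (hQ : 0 < Q') (hy : 0 < Ly)
    (hd : Q0 ∣ Q') (h2 : 2 * Q' * Q0 * s0 ∣ Ly) (w N : ℤ√2) (ψ : ℤ × ℤ × ℤ × ℤ → ℝ)
    (φ : ℤ × ℤ → ℝ) :
    ∑ y ∈ box Ly with (2 * (Q' : ℤ)) ∣ w.re - y.re ∧ (Q' : ℤ) ∣ w.im - y.im,
        ψ (lab Q0 s0 Ly y) * φ ((xx Q' N (w, y)).re % Q0, (xx Q' N (w, y)).im % Q0) =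
      ((Ly : ℝ) / Q') ^ 2 *
        ((∑ v ∈ Ico (2 * (s0 : ℤ)) (4 * s0) ×ˢ Ico (0 : ℤ) s0,
          ψ (w.re % Q0, w.im % Q0, v.1, v.2)) / (2 * (s0 : ℝ) ^ 2)) *
        ((∑ o ∈ Ico (0 : ℤ) Q0 ×ˢ Ico (0 : ℤ) Q0, φ o) / (Q0 : ℝ) ^ 2) := by
  have h3 : Q' * Q0 * s0 ∣ Ly := by
    refine dvd_trans ⟨2, by ring⟩ h2
  have hd' : (Q0 : ℤ) ∣ Q' := by exact_mod_cast hd
  set G : ℤ → ℤ → ℝ := fun v₁ v₂ => ψ (w.re % Q0, w.im % Q0, v₁, v₂) with hG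
  -- rewrite the sum as a double sum
  have e1 : ∑ y ∈ box Ly with (2 * (Q' : ℤ)) ∣ w.re - y.re ∧ (Q' : ℤ) ∣ w.im - y.im,
        ψ (lab Q0 s0 Ly y) * φ ((xx Q' N (w, y)).re % Q0, (xx Q' N (w, y)).im % Q0) =
      ∑ a ∈ Ico (((2 : ℕ) : ℤ) * Ly) (((4 : ℕ) : ℤ) * Ly) with ((2 * Q' : ℕ) : ℤ) ∣ w.re - a,
        ∑ b ∈ Ico (((0 : ℕ) : ℤ) * Ly) (((1 : ℕ) : ℤ) * Ly) with ((Q' : ℕ) : ℤ) ∣ w.im - b,
          G (a * s0 / Ly) (b * s0 / Ly) *
            φ (((N * w).re + (w.im - b) / Q') % Q0,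
              ((N * w).im + (w.re - a) / ((2 * Q' : ℕ) : ℤ)) % Q0) := by
    rw [sum_filter, sum_box, sum_filter]
    push_cast
    rw [zero_mul, one_mul]
    apply sum_congr rfl
    intro a _
    split_ifs with hA
    · rw [sum_filter]
      apply sum_congr rfl
      intro b _
      by_cases hB : (Q' : ℤ) ∣ w.im - b
      · rw [if_pos ⟨hA, hB⟩, if_pos hB]
        have ha : a % (Q0 : ℤ) = w.re % Q0 := by
          have : (Q0 : ℤ) ∣ w.re - a := dvd_trans (dvd_trans hd' ⟨2, by ring⟩) hA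
          exact (Int.modEq_iff_dvd.2 this)
        have hb : b % (Q0 : ℤ) = w.im % Q0 := by
          have : (Q0 : ℤ) ∣ w.im - b := dvd_trans hd' hB
          exact (Int.modEq_iff_dvd.2 this)
        simp only [lab, hG, xx, tt, ha, hb, Zsqrtd.re_add, Zsqrtd.im_add]
      · rw [if_neg (fun h => hB h.2), if_neg hB]
    · apply sum_eq_zero
      intro b _
      rw [if_neg (fun h => hA h.1)]
  rw [e1]
  -- inner sum
  have e2 : ∀ a : ℤ, ∑ b ∈ Ico (((0 : ℕ) : ℤ) * Ly) (((1 : ℕ) : ℤ) * Ly) with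
        ((Q' : ℕ) : ℤ) ∣ w.im - b,
          G (a * s0 / Ly) (b * s0 / Ly) *
            φ (((N * w).re + (w.im - b) / Q') % Q0,
              ((N * w).im + (w.re - a) / ((2 * Q' : ℕ) : ℤ)) % Q0) =
      ((Ly : ℝ) / (Q' * Q0 * s0)) *
        ∑ v ∈ Ico (((0 : ℕ) : ℤ) * s0) (((1 : ℕ) : ℤ) * s0), ∑ o ∈ Ico (0 : ℤ) Q0,
          G (a * s0 / Ly) v * φ (o, ((N * w).im + (w.re - a) / ((2 * Q' : ℕ) : ℤ)) % Q0) :=
    fun a => h96_line hQ h0 hs hy h3 0 1 (N * w).re w.im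
      (fun v o => G (a * s0 / Ly) v *
        φ (o, ((N * w).im + (w.re - a) / ((2 * Q' : ℕ) : ℤ)) % Q0))
  rw [sum_congr rfl (fun a _ => e2 a), ← mul_sum]
  have e3 := h96_line (m := 2 * Q') (by positivity) h0 hs hy h2 2 4 (N * w).im w.re
    (fun v o => ∑ v' ∈ Ico (((0 : ℕ) : ℤ) * s0) (((1 : ℕ) : ℤ) * s0), ∑ o' ∈ Ico (0 : ℤ) Q0,
      G v v' * φ (o', o))
  rw [e3]
  have e4 : ∑ v ∈ Ico (((2 : ℕ) : ℤ) * s0) (((4 : ℕ) : ℤ) * s0), ∑ o ∈ Ico (0 : ℤ) Q0,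
      ∑ v' ∈ Ico (((0 : ℕ) : ℤ) * s0) (((1 : ℕ) : ℤ) * s0), ∑ o' ∈ Ico (0 : ℤ) Q0,
        G v v' * φ (o', o) =
      (∑ v ∈ Ico (2 * (s0 : ℤ)) (4 * s0) ×ˢ Ico (0 : ℤ) s0,
          ψ (w.re % Q0, w.im % Q0, v.1, v.2)) *
        (∑ o ∈ Ico (0 : ℤ) Q0 ×ˢ Ico (0 : ℤ) Q0, φ o) := by
    rw [sum_product, sum_product, sum_mul]
    push_cast
    rw [zero_mul, one_mul]
    apply sum_congr rfl
    intro v _
    rw [sum_comm (s := Ico (0 : ℤ) Q0) (t := Ico (0 : ℤ) Q0), mul_sum]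
    apply sum_congr rfl
    intro o _
    rw [sum_mul_sum]
  rw [e4]
  have h4 : (Q' : ℝ) ≠ 0 := by exact_mod_cast hQ.ne'
  have h5 : (Q0 : ℝ) ≠ 0 := by exact_mod_cast h0.ne'
  have h6 : (s0 : ℝ) ≠ 0 := by exact_mod_cast hs.ne'
  push_cast
  field_simp

end Pool.Agent.helper1.PR
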